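import Pool.Agent.Lib_helper57.PX.TDP

/-! # Oracles that keep trapdoor permutations (MP_5c38ab_lc) -/

set_option autoImplicit false

namespace Pool.Agent.FSS

open Pool.Agent.PX

/-- `O` keeps the trapdoor permutations of `R` and their security up to polynomials: if `G`, `F`,
`K` are trapdoor permutations relative to `R` which are secure against the size `(T n + n + 2) ^ k`
for every `k`, then they are trapdoor permutations relative to `O` with the same security. -/
def KeepsTrapdoors (R O : Lang) : Prop :=
  ∀ (G F K : List Bool → List Bool) (T : ℕ → ℕ), TrapdoorPermutations R G F K →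
    (∀ k, Secure R G F (fun n => (T n + n + 2) ^ k)) →
    TrapdoorPermutations O G F K ∧ ∀ k, Secure O G F (fun n => (T n + n + 2) ^ k)

end Pool.Agent.FSS
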