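import Pool.Agent.Lib_helper94.FSS.Sec
import Pool.Agent.Lib_helper94.FSS.Defs
import Pool.Agent.Lib_helper78.PLS.Three
import Pool.Agent.Lib_helper78.PLS.InfPH
import Pool.Agent.Lib_helper57.PX.IsoC

/-!
# The three cases by few strings, with trapdoor permutations
-/

set_option autoImplicit false

namespace Pool.Agent.FSS

open Pool.Agent.CK Filter
open Pool.Agent.FS (Few)
open Pool.Agent.SP (few_mono)

/-- Sparse oracles keep trapdoor permutations. -/
theorem keeps {R W : CK.Lang} (hW : Few (fun n => n) W) :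
    KeepsTrapdoors R (PX.join R W) := by
  intro G F K T h1 h2
  rw [← PX.join_eq]
  have h3 := (PX.tdp_iff R G F K).2 h1
  have hW' : Few (fun n => n ^ 1 + 1) W := few_mono (fun n => by simp) hW
  exact ⟨(PX.tdp_iff _ G F K).1 (TPR.tdp_lift h3), fun k => (PX.secure_iff _ G F _).1
    (secure_poly hW' h3 (fun k => (PX.secure_iff _ G F _).2 (h2 k)) k)⟩

theorem three (R : CK.Lang) (α : ℕ → ℕ) (hα : Tendsto α atTop atTop) :
    (∃ W, Few α W ∧ (PLS.InfinitePH R → PLS.InfinitePH (join R W)) ∧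
      KeepsTrapdoors R (PX.join R W) ∧ PLS.Q1False (join R W)) ∧
    (∃ W, Few α W ∧ (PLS.InfinitePH R → PLS.InfinitePH (join R W)) ∧
      KeepsTrapdoors R (PX.join R W) ∧ PLS.BothTrueExp (join R W)) ∧
    ∃ W, Few α W ∧ (PLS.InfinitePH R → PLS.InfinitePH (join R W)) ∧
      KeepsTrapdoors R (PX.join R W) ∧ PLS.Q1True (join R W) ∧ PLS.ConFalse (join R W) := by
  have hβ : Tendsto (fun n => min (α n) n) atTop atTop := by
    rw [tendsto_atTop]
    intro b
    filter_upwards [tendsto_atTop.1 hα b, eventually_ge_atTop b] with n h1 h2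
    exact le_min h1 h2
  obtain ⟨⟨W1, a1, a2, a3⟩, ⟨W2, b1, b2, b3⟩, ⟨W3, c1, c2, c3⟩⟩ :=
    PLS.three R (fun n => min (α n) n) hβ
  exact ⟨⟨W1, few_mono (fun n => min_le_left _ _) a1, a2,
      keeps (few_mono (fun n => min_le_right _ _) a1), a3⟩,
    ⟨W2, few_mono (fun n => min_le_left _ _) b1, b2,
      keeps (few_mono (fun n => min_le_right _ _) b1), b3⟩,
    ⟨W3, few_mono (fun n => min_le_left _ _) c1, c2,
      keeps (few_mono (fun n => min_le_right _ _) c1), c3⟩⟩

/-- Above every oracle there are an infinite hierarchy and strong trapdoor permutations. -/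
theorem exists_hard (R : CK.Lang) (β : ℕ → ℕ) (hβ : Tendsto β atTop atTop) :
    ∃ O : CK.Lang, CK.InP O R ∧ PLS.InfinitePH O ∧ ∃ G F K : List Bool → List Bool,
      PX.TrapdoorPermutations O G F K ∧
        ∀ k, PX.Secure O G F (fun n => (2 ^ (n / β n) + n + 2) ^ k) := by
  obtain ⟨β', h1, h2⟩ := exists_slower hβ
  obtain ⟨O, h3, -, h4, G, F, K, h5, h6⟩ := PLS.infPH R β' h1
  exact ⟨O, h3, h4, G, F, K, (PX.tdp_iff _ G F K).1 h5, fun k => (PX.secure_iff _ G F _).1
    (AEC.secure_mono (h2 k) h6)⟩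

end Pool.Agent.FSS
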